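import Pool.Agent.Helper27.T5.SchDefs
import Pool.Agent.Helper27.T4.Sch
import Pool.Agent.Helper30.ET.Nj

/-!
# T5a (MP_12a1af): sizes of the windows, of the periods and of the moduli of the static levels
-/

namespace Pool.Agent.Helper30.T5

open Finset Pool.Agent.Helper5.ET Pool.Agent.Helper27.T5

/-! ## the binary logarithm of the border -/

theorem bb_pos (j : ℕ) : 0 < bb j :=
  lt_of_lt_of_le (by positivity : 0 < 2 ^ 64) (Pool.Agent.Helper27.T4.bb_ge_pow j)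

theorem bb_pos_real (j : ℕ) : (0 : ℝ) < bb j := by exact_mod_cast bb_pos j

theorem one_le_bb (j : ℕ) : (1 : ℝ) ≤ bb j := by exact_mod_cast bb_pos j

theorem la_le (j : ℕ) : 2 ^ la j ≤ bb j := Nat.pow_log_le_self 2 (bb_pos j).ne'

theorem lt_la (j : ℕ) : bb j < 2 ^ (la j + 1) := Nat.lt_pow_succ_log_self (by norm_num) _

theorem la_mono {i j : ℕ} (h : i ≤ j) : la i ≤ la j :=
  Nat.log_mono_right (Pool.Agent.Helper27.T4.bb_strictMono.monotone h)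

theorem rt_pos (m j : ℕ) : 0 < rt m j := by unfold rt; positivity

theorem rt_mono (m : ℕ) {i j : ℕ} (h : i ≤ j) : rt m i ≤ rt m j :=
  Nat.pow_le_pow_right (by norm_num) (Nat.div_le_div_right (la_mono h))

theorem W_pos (m j i : ℕ) : 0 < W m j i := by unfold W; positivity

theorem rt_pow_le (m j : ℕ) : rt m j ^ m ≤ bb j := by
  unfold rt
  rw [← pow_mul]
  exact (Nat.pow_le_pow_right (by norm_num) (Nat.div_mul_le_self _ _)).trans (la_le j)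

theorem bb_lt_rt_pow {m : ℕ} (hm : 0 < m) (j : ℕ) : bb j < (2 * rt m j) ^ m := by
  unfold rt
  rw [← pow_succ', ← pow_mul]
  refine (lt_la j).trans_le (Nat.pow_le_pow_right (by norm_num) ?_)
  have := Nat.lt_div_mul_add (a := la j) hm
  nlinarith

/-- `rt ≤ b ^ (1 / m)` -/
theorem rt_le_rpow {m : ℕ} (hm : 0 < m) (j : ℕ) : (rt m j : ℝ) ≤ (bb j : ℝ) ^ (1 / (m : ℝ)) := by
  have h1 : ((rt m j : ℝ)) ^ m ≤ (bb j : ℝ) := by exact_mod_cast rt_pow_le m j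
  have h2 : ((rt m j : ℝ) ^ m) ^ (1 / (m : ℝ)) ≤ (bb j : ℝ) ^ (1 / (m : ℝ)) :=
    Real.rpow_le_rpow (by positivity) h1 (by positivity)
  rw [one_div] at h2 ⊢
  rwa [Real.pow_rpow_inv_natCast (by positivity) hm.ne'] at h2

/-- `b ^ (1 / m) ≤ 2 rt` -/
theorem rpow_le_rt {m : ℕ} (hm : 0 < m) (j : ℕ) : (bb j : ℝ) ^ (1 / (m : ℝ)) ≤ 2 * (rt m j : ℝ) := by
  have h1 : (bb j : ℝ) ≤ (2 * (rt m j : ℝ)) ^ m := by exact_mod_cast (bb_lt_rt_pow hm j).le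
  have h2 : (bb j : ℝ) ^ (1 / (m : ℝ)) ≤ ((2 * (rt m j : ℝ)) ^ m) ^ (1 / (m : ℝ)) :=
    Real.rpow_le_rpow (bb_pos_real j).le h1 (by positivity)
  rw [one_div] at h2 ⊢
  rwa [Real.pow_rpow_inv_natCast (by positivity) hm.ne'] at h2

/-! ## the windows -/

theorem W_zero (m j : ℕ) : W m j 0 = 2 ^ la j := by simp [W]

theorem bb_lt_W_zero (m j : ℕ) : bb j < 2 * W m j 0 := by
  rw [W_zero, ← pow_succ']
  exact lt_la j

theorem W_zero_le (m j : ℕ) : W m j 0 ≤ bb j := by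
  rw [W_zero]
  exact la_le j

/-- exact quotient -/
theorem W_add {m j i d : ℕ} (h : i + d ≤ m) : W m j i = rt m j ^ d * W m j (i + d) := by
  unfold W rt
  rw [← pow_mul, ← pow_add]
  congr 1
  have h1 : (i + d) * (la j / m) ≤ la j :=
    (Nat.mul_le_mul_right _ h).trans (Nat.mul_div_le _ _)
  rw [Nat.add_mul] at h1 ⊢
  have h2 : la j / m * d = d * (la j / m) := Nat.mul_comm _ _
  omega

theorem W_succ {m j i : ℕ} (h : i + 1 ≤ m) : W m j i = rt m j * W m j (i + 1) := by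
  have := W_add (j := j) h
  rwa [pow_one] at this

theorem W_zero_eq {m j i : ℕ} (h : i ≤ m) : W m j 0 = rt m j ^ i * W m j i := by
  have := W_add (j := j) (i := 0) (d := i) (by omega : 0 + i ≤ m)
  rwa [Nat.zero_add] at this

theorem W_anti (m j : ℕ) {i i' : ℕ} (h : i ≤ i') : W m j i' ≤ W m j i := by
  unfold W
  refine Nat.pow_le_pow_right (by norm_num) ?_
  have := Nat.mul_le_mul_right (la j / m) h
  omega

theorem rt_le_W {m j i : ℕ} (h : i + 1 ≤ m) : rt m j ≤ W m j i := by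
  rw [W_succ h]
  exact Nat.le_mul_of_pos_right _ (W_pos m j _)

/-- `W i ≤ 2 ^ i * b ^ (1 - i / m)` -/
theorem W_le_rpow {m i : ℕ} (hm : 0 < m) (hi : i ≤ m) (j : ℕ) :
    (W m j i : ℝ) ≤ 2 ^ i * (bb j : ℝ) ^ (1 - (i : ℝ) / m) := by
  -- `W i * rt ^ i = W 0 ≤ b` and `b ^ (i / m) ≤ (2 rt) ^ i`
  have hb := bb_pos_real j
  have hr : (0 : ℝ) < (rt m j : ℝ) := by exact_mod_cast rt_pos m j
  have h1 : (rt m j : ℝ) ^ i * (W m j i : ℝ) ≤ (bb j : ℝ) := by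
    have := W_zero_le m j
    rw [W_zero_eq hi] at this
    exact_mod_cast this
  have h2 : (bb j : ℝ) ^ ((i : ℝ) / m) ≤ (2 * (rt m j : ℝ)) ^ i := by
    have h3 := pow_le_pow_left₀ (by positivity) (rpow_le_rt hm j) i
    rwa [← Real.rpow_natCast ((bb j : ℝ) ^ (1 / (m : ℝ))) i, ← Real.rpow_mul hb.le,
      one_div_mul_eq_div] at h3
  have h4 : (0 : ℝ) < (bb j : ℝ) ^ ((i : ℝ) / m) := by positivity
  have h5 : (bb j : ℝ) ^ (1 - (i : ℝ) / m) = (bb j : ℝ) / (bb j : ℝ) ^ ((i : ℝ) / m) := by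
    rw [Real.rpow_sub hb, Real.rpow_one]
  rw [h5, mul_div_assoc', le_div_iff₀ h4]
  calc (W m j i : ℝ) * (bb j : ℝ) ^ ((i : ℝ) / m) ≤ (W m j i : ℝ) * (2 * (rt m j : ℝ)) ^ i :=
        mul_le_mul_of_nonneg_left h2 (Nat.cast_nonneg _)
    _ = 2 ^ i * ((rt m j : ℝ) ^ i * (W m j i : ℝ)) := by rw [mul_pow]; ring
    _ ≤ 2 ^ i * (bb j : ℝ) := mul_le_mul_of_nonneg_left h1 (by positivity)

/-- `b ^ (1 - i / m) ≤ 2 W i` -/
theorem rpow_le_W {m i : ℕ} (hm : 0 < m) (hi : i ≤ m) (j : ℕ) :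
    (bb j : ℝ) ^ (1 - (i : ℝ) / m) ≤ 2 * (W m j i : ℝ) := by
  have hb := bb_pos_real j
  have hr : (0 : ℝ) < (rt m j : ℝ) := by exact_mod_cast rt_pos m j
  have h1 : (bb j : ℝ) ≤ 2 * ((rt m j : ℝ) ^ i * (W m j i : ℝ)) := by
    have := (bb_lt_W_zero m j).le
    rw [W_zero_eq hi] at this
    exact_mod_cast this
  have h2 : (rt m j : ℝ) ^ i ≤ (bb j : ℝ) ^ ((i : ℝ) / m) := by
    have h3 := pow_le_pow_left₀ hr.le (rt_le_rpow hm j) i
    rwa [← Real.rpow_natCast ((bb j : ℝ) ^ (1 / (m : ℝ))) i, ← Real.rpow_mul hb.le,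
      one_div_mul_eq_div] at h3
  have h4 : (0 : ℝ) < (bb j : ℝ) ^ ((i : ℝ) / m) := by positivity
  have h5 : (bb j : ℝ) ^ (1 - (i : ℝ) / m) = (bb j : ℝ) / (bb j : ℝ) ^ ((i : ℝ) / m) := by
    rw [Real.rpow_sub hb, Real.rpow_one]
  rw [h5, div_le_iff₀ h4]
  calc (bb j : ℝ) ≤ 2 * ((rt m j : ℝ) ^ i * (W m j i : ℝ)) := h1
    _ ≤ 2 * ((bb j : ℝ) ^ ((i : ℝ) / m) * (W m j i : ℝ)) := by gcongr
    _ = 2 * (W m j i : ℝ) * (bb j : ℝ) ^ ((i : ℝ) / m) := by ring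

/-! ## the periods -/

/-- exact: `W i = 2 ^ 9 * PP i` -/
theorem W_eq_PP {m j i : ℕ} (hi : i + 1 ≤ m) (hr : 2 ^ 9 ≤ rt m j) : W m j i = 2 ^ 9 * PP m j i := by
  unfold PP
  refine (Nat.mul_div_cancel' ?_).symm
  have h1 := rt_le_W (j := j) hi
  have h2 : 2 ^ 9 ≤ W m j i := hr.trans h1
  unfold W at h2 ⊢
  exact pow_dvd_pow 2 ((Nat.pow_le_pow_iff_right (by norm_num : 1 < 2)).1 h2)

theorem PP_pos {m j i : ℕ} (hi : i + 1 ≤ m) (hr : 2 ^ 9 ≤ rt m j) : 0 < PP m j i := by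
  have h1 := W_eq_PP hi hr
  have h2 := W_pos m j i
  rcases Nat.eq_zero_or_pos (PP m j i) with h0 | h0
  · rw [h0] at h1; omega
  · exact h0

/-- `W i = 2 ^ 9 * rt ^ d * PP (i + d)` -/
theorem W_eq_PP_add {m j i d : ℕ} (hi : i + d + 1 ≤ m) (hr : 2 ^ 9 ≤ rt m j) :
    W m j i = 2 ^ 9 * rt m j ^ d * PP m j (i + d) := by
  rw [W_add (d := d) (by omega), W_eq_PP hi hr]
  ring

theorem PP_add {m j i d : ℕ} (hi : i + d + 1 ≤ m) (hr : 2 ^ 9 ≤ rt m j) :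
    PP m j i = rt m j ^ d * PP m j (i + d) := by
  have h1 := W_eq_PP_add hi hr
  rw [W_eq_PP (by omega) hr] at h1
  have h2 : 2 ^ 9 * PP m j i = 2 ^ 9 * (rt m j ^ d * PP m j (i + d)) := by rw [h1]; ring
  exact Nat.eq_of_mul_eq_mul_left (by norm_num) h2

/-- `W i ≤ 2 ^ 9 * b ^ (d / m) * PP (i + d)` -/
theorem W_le_PP {m j i d : ℕ} (hi : i + d + 1 ≤ m) (hr : 2 ^ 9 ≤ rt m j) :
    (W m j i : ℝ) ≤ 2 ^ 9 * (bb j : ℝ) ^ ((d : ℝ) / m) * (PP m j (i + d) : ℝ) := by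
  have hm : 0 < m := by omega
  have h1 : (W m j i : ℝ) = 2 ^ 9 * (rt m j : ℝ) ^ d * (PP m j (i + d) : ℝ) := by
    exact_mod_cast W_eq_PP_add hi hr
  have h2 : (rt m j : ℝ) ^ d ≤ (bb j : ℝ) ^ ((d : ℝ) / m) := by
    have h3 := pow_le_pow_left₀ (Nat.cast_nonneg _) (rt_le_rpow hm j) d
    rwa [← Real.rpow_natCast ((bb j : ℝ) ^ (1 / (m : ℝ))) d, ← Real.rpow_mul (bb_pos_real j).le,
      one_div_mul_eq_div] at h3
  rw [h1]
  gcongr

/-! ## positions of an era -/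

/-- `bb j ≤ l < 2 * bb j` in the era `j` -/
theorem era_bounds {l j : ℕ} (hl : bb 0 ≤ l) (hj : era l = j) : bb j ≤ l ∧ l < 2 * bb j := by
  have h1 := Pool.Agent.Helper27.T4.era_spec l hl
  rw [hj] at h1
  have h2 := Pool.Agent.Helper27.T4.bb_succ_le j
  exact ⟨h1.1, by omega⟩

/-- `l < 4 * rt ^ i * W i` in the era `j` -/
theorem lt_mul_W {m l j i : ℕ} (hl : bb 0 ≤ l) (hj : era l = j) (hi : i ≤ m) :
    l < 4 * (rt m j ^ i * W m j i) := by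
  have h1 := (era_bounds hl hj).2
  have h2 := bb_lt_W_zero m j
  rw [W_zero_eq hi] at h2
  omega

/-- `rt ≤ l ^ (1 / m)` in the era `j` -/
theorem rt_le_rpow_l {m l j : ℕ} (hm : 0 < m) (hl : bb 0 ≤ l) (hj : era l = j) :
    (rt m j : ℝ) ≤ (l : ℝ) ^ (1 / (m : ℝ)) := by
  refine (rt_le_rpow hm j).trans ?_
  exact Real.rpow_le_rpow (bb_pos_real j).le (by exact_mod_cast (era_bounds hl hj).1)
    (by positivity)

theorem rt_pow_le_rpow_l {m l j d : ℕ} (hm : 0 < m) (hl : bb 0 ≤ l) (hj : era l = j) :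
    (rt m j : ℝ) ^ d ≤ (l : ℝ) ^ ((d : ℝ) / m) := by
  have h3 := pow_le_pow_left₀ (Nat.cast_nonneg _) (rt_le_rpow_l hm hl hj) d
  rwa [← Real.rpow_natCast ((l : ℝ) ^ (1 / (m : ℝ))) d, ← Real.rpow_mul (Nat.cast_nonneg _),
    one_div_mul_eq_div] at h3

/-- `l ≤ 4 * l ^ (i / m) * W i` -/
theorem l_le_mul_W {m l j i : ℕ} (hm : 0 < m) (hl : bb 0 ≤ l) (hj : era l = j) (hi : i ≤ m) :
    (l : ℝ) ≤ 4 * (l : ℝ) ^ ((i : ℝ) / m) * (W m j i : ℝ) := by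
  have h1 : (l : ℝ) ≤ 4 * ((rt m j : ℝ) ^ i * (W m j i : ℝ)) := by
    exact_mod_cast (lt_mul_W hl hj hi).le
  have h2 := rt_pow_le_rpow_l (d := i) hm hl hj
  calc (l : ℝ) ≤ 4 * ((rt m j : ℝ) ^ i * (W m j i : ℝ)) := h1
    _ ≤ 4 * ((l : ℝ) ^ ((i : ℝ) / m) * (W m j i : ℝ)) := by gcongr
    _ = 4 * (l : ℝ) ^ ((i : ℝ) / m) * (W m j i : ℝ) := by ring

/-- `W i ≤ 2 ^ 9 * l ^ (d / m) * PP (i + d)` for positions of the era -/
theorem W_le_PP_l {m l j i d : ℕ} (hl : bb 0 ≤ l) (hj : era l = j) (hi : i + d + 1 ≤ m)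
    (hr : 2 ^ 9 ≤ rt m j) :
    (W m j i : ℝ) ≤ 2 ^ 9 * (l : ℝ) ^ ((d : ℝ) / m) * (PP m j (i + d) : ℝ) := by
  have hm : 0 < m := by omega
  have h1 : (W m j i : ℝ) = 2 ^ 9 * (rt m j : ℝ) ^ d * (PP m j (i + d) : ℝ) := by
    exact_mod_cast W_eq_PP_add hi hr
  have h2 := rt_pow_le_rpow_l (d := d) hm hl hj
  rw [h1]
  gcongr

/-! ## large eras -/

theorem tendsto_bb : Filter.Tendsto bb Filter.atTop Filter.atTop :=
  Pool.Agent.Helper27.T4.bb_strictMono.tendsto_atTop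

theorem tendsto_bb_real : Filter.Tendsto (fun j => (bb j : ℝ)) Filter.atTop Filter.atTop :=
  tendsto_natCast_atTop_atTop.comp tendsto_bb

/-- `M * (log b) ^ t ≤ rt` for late eras -/
theorem exists_log_pow_le_rt {m : ℕ} (hm : 0 < m) (M : ℝ) (t : ℕ) :
    ∃ j0 : ℕ, ∀ j ≥ j0, M * Real.log (bb j) ^ t ≤ (rt m j : ℝ) := by
  have h1 := isLittleO_log_rpow_rpow_atTop (s := 1 / (m : ℝ)) (t : ℝ)
    (by positivity : (0 : ℝ) < 1 / (m : ℝ))
  have h2 := (h1.const_mul_left (2 * |M|)).bound (show (0 : ℝ) < 1 by norm_num)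
  have h3 := tendsto_bb_real.eventually h2
  rw [Filter.eventually_atTop] at h3
  obtain ⟨j0, h3⟩ := h3
  refine ⟨j0, fun j hj => ?_⟩
  have h4 := h3 j hj
  have hlog : 0 ≤ Real.log (bb j) := Real.log_nonneg (one_le_bb j)
  rw [Real.rpow_natCast, Real.norm_of_nonneg (by positivity), Real.norm_of_nonneg (by positivity),
    one_mul] at h4
  have h5 := rpow_le_rt hm j
  have h6 : M * Real.log (bb j) ^ t ≤ |M| * Real.log (bb j) ^ t :=
    mul_le_mul_of_nonneg_right (le_abs_self M) (by positivity)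
  linarith

theorem exists_le_rt {m : ℕ} (hm : 0 < m) (M : ℕ) : ∃ j0 : ℕ, ∀ j ≥ j0, M ≤ rt m j := by
  obtain ⟨j0, h⟩ := exists_log_pow_le_rt hm (M : ℝ) 0
  refine ⟨j0, fun j hj => ?_⟩
  have := h j hj
  rw [pow_zero, mul_one] at this
  exact_mod_cast this

/-- `M * (log b) ^ t ≤ W i` for late eras and `i < m` -/
theorem exists_log_pow_le_W {m : ℕ} (hm : 0 < m) (M : ℝ) (t : ℕ) :
    ∃ j0 : ℕ, ∀ j ≥ j0, ∀ i, i + 1 ≤ m → M * Real.log (bb j) ^ t ≤ (W m j i : ℝ) := by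
  obtain ⟨j0, h⟩ := exists_log_pow_le_rt hm M t
  exact ⟨j0, fun j hj i hi => (h j hj).trans (by exact_mod_cast rt_le_W hi)⟩

/-- the next window is smaller by any constant factor -/
theorem exists_mul_W_le {m : ℕ} (hm : 0 < m) (M : ℕ) :
    ∃ j0 : ℕ, ∀ j ≥ j0, ∀ i, i + 1 ≤ m → M * W m j (i + 1) ≤ W m j i := by
  obtain ⟨j0, h⟩ := exists_le_rt hm M
  refine ⟨j0, fun j hj i hi => ?_⟩
  rw [W_succ (j := j) hi]
  exact Nat.mul_le_mul_right _ (h j hj)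

end Pool.Agent.Helper30.T5
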