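import Pool.Agent.Helper30.T5.Size

/-!
# T5a (MP_12a1af): sizes of the moduli of the static levels
-/

namespace Pool.Agent.Helper30.T5

open Finset Pool.Agent.Helper5.ET Pool.Agent.Helper27.T5

/-! ## the primes of the static levels -/

theorem sp_prime (n : ℕ) : (sp n).Prime := Nat.prime_nth_prime _

theorem sp_strictMono : StrictMono sp := by
  intro a b h
  exact Nat.nth_strictMono Nat.infinite_setOfPred_prime (by omega)

theorem sp_injective : Function.Injective sp := sp_strictMono.injective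

theorem nth_prime_step (n : ℕ) (hn : 1 ≤ n) :
    Nat.nth Nat.Prime n + 2 ≤ Nat.nth Nat.Prime (n + 1) := by
  have h1 : Nat.nth Nat.Prime n < Nat.nth Nat.Prime (n + 1) :=
    Nat.nth_strictMono Nat.infinite_setOfPred_prime (Nat.lt_succ_self n)
  have h3 : 3 ≤ Nat.nth Nat.Prime n := by
    have := Nat.add_two_le_nth_prime n
    omega
  have e1 : Nat.nth Nat.Prime n % 2 = 1 :=
    (Nat.prime_nth_prime n).eq_two_or_odd.resolve_left (by omega)
  have e2 : Nat.nth Nat.Prime (n + 1) % 2 = 1 :=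
    (Nat.prime_nth_prime (n + 1)).eq_two_or_odd.resolve_left (by omega)
  omega

theorem two_mul_lt_nth_prime (n : ℕ) : 2 * n < Nat.nth Nat.Prime n := by
  induction n with
  | zero =>
    have := Nat.add_two_le_nth_prime 0
    omega
  | succ n ih =>
    rcases Nat.eq_zero_or_pos n with h | h
    · subst h
      have := Nat.add_two_le_nth_prime 1
      show 2 * 1 < Nat.nth Nat.Prime 1
      omega
    · have := nth_prime_step n h
      omega

theorem lt_sp (n : ℕ) : 2 * (n + 1000000) < sp n := by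
  have h := two_mul_lt_nth_prime (n + 10 ^ 6)
  have e : (10 : ℕ) ^ 6 = 1000000 := by norm_num
  unfold sp
  rw [e] at h ⊢
  exact h

theorem pr_lt_sp (f : Fin 3) (n : ℕ) : pr f < sp n := by
  have h1 := Pool.Agent.Helper50.ET.pr_le f
  have h2 := lt_sp n
  omega

theorem sp_ne_pr (f : Fin 3) (n : ℕ) : sp n ≠ pr f := (pr_lt_sp f n).ne'

theorem one_lt_sp (n : ℕ) : 1 < sp n := (sp_prime n).one_lt

theorem sp_pos (n : ℕ) : 0 < sp n := (sp_prime n).pos

theorem million_lt_sp (n : ℕ) : 10 ^ 6 < sp n := by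
  have h : 1000000 < sp n := lt_of_le_of_lt (by omega) (lt_sp n)
  have e : (10 : ℕ) ^ 6 = 1000000 := by norm_num
  rw [e]
  exact h

theorem coprime_sp {a b : ℕ} (h : a ≠ b) : Nat.Coprime (sp a) (sp b) :=
  (Nat.coprime_primes (sp_prime a) (sp_prime b)).2 (fun e => h (sp_injective e))

theorem coprime_pr_sp (f : Fin 3) (n : ℕ) : Nat.Coprime (pr f) (sp n) :=
  (Nat.coprime_primes (pr_prime f) (sp_prime n)).2 (sp_ne_pr f n).symm

theorem coprime_Nj_sp (l n : ℕ) : Nat.Coprime (Nj l) (sp n) := by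
  rw [Pool.Agent.Helper30.ET.Nj_eq_prod]
  exact Nat.Coprime.prod_left (fun t _ => coprime_pr_sp _ n)

/-- the prime powers of different families are coprime -/
theorem coprime_sp_pow {a b : ℕ} (h : a ≠ b) (x y : ℕ) : Nat.Coprime (sp a ^ x) (sp b ^ y) :=
  Nat.Coprime.pow _ _ (coprime_sp h)

/-! ## the moduli -/

/-- modulus of the family `f` of the static level `i ≥ 2` -/
noncomputable def Qf (m j i : ℕ) (f : Fin 3) : ℕ := sp (3 * i + f) ^ zz m j i f

/-- modulus of the static level `i ≥ 2` -/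
noncomputable def Qs (m j i : ℕ) : ℕ := ∏ f : Fin 3, Qf m j i f

/-- product of the moduli of the static levels `2, ..., s` -/
noncomputable def Lp (m j s : ℕ) : ℕ := ∏ i ∈ Icc 2 s, Qs m j i

/-- number of digits of the family `f` of the static level `i` -/
def dg (m j i : ℕ) (f : Fin 3) : ℕ := gw f * (W m j (i - 1) - W m j i) / 8

theorem Qf_pos (m j i : ℕ) (f : Fin 3) : 0 < Qf m j i f := pow_pos (sp_pos _) _

theorem Qs_pos (m j i : ℕ) : 0 < Qs m j i := Finset.prod_pos (fun f _ => Qf_pos m j i f)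

theorem Lp_pos (m j s : ℕ) : 0 < Lp m j s := Finset.prod_pos (fun i _ => Qs_pos m j i)

theorem idx_inj {i i' : ℕ} {f f' : Fin 3} (h : 3 * i + (f : ℕ) = 3 * i' + (f' : ℕ)) :
    i = i' ∧ f = f' := by
  have h1 := f.2
  have h2 := f'.2
  refine ⟨by omega, Fin.ext (by omega)⟩

theorem coprime_Qf {m j i : ℕ} {f f' : Fin 3} (h : f ≠ f') :
    Nat.Coprime (Qf m j i f) (Qf m j i f') :=
  coprime_sp_pow (fun e => h (idx_inj e).2) _ _

theorem coprime_Qs {m j i i' : ℕ} (h : i ≠ i') : Nat.Coprime (Qs m j i) (Qs m j i') := by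
  unfold Qs
  exact Nat.Coprime.prod_left (fun f _ => Nat.Coprime.prod_right
    (fun f' _ => coprime_sp_pow (fun e => h (idx_inj e).1) _ _))

theorem coprime_Nj_Qs (l m j i : ℕ) : Nat.Coprime (Nj l) (Qs m j i) := by
  unfold Qs Qf
  exact Nat.Coprime.prod_right (fun f _ => Nat.Coprime.pow_right _ (coprime_Nj_sp l _))

theorem coprime_pr_Qs (g : Fin 3) (m j i : ℕ) : Nat.Coprime (pr g) (Qs m j i) := by
  unfold Qs Qf
  exact Nat.Coprime.prod_right (fun f _ => Nat.Coprime.pow_right _ (coprime_pr_sp g _))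

theorem coprime_Nj_Lp (l m j s : ℕ) : Nat.Coprime (Nj l) (Lp m j s) :=
  Nat.Coprime.prod_right (fun i _ => coprime_Nj_Qs l m j i)

theorem Lp_succ {m j s : ℕ} (hs : 1 ≤ s) : Lp m j (s + 1) = Lp m j s * Qs m j (s + 1) := by
  unfold Lp
  rw [Finset.prod_Icc_succ_top (by omega)]

theorem Lp_one (m j : ℕ) : Lp m j 1 = 1 := by simp [Lp]

/-! ## sizes, natural numbers -/

theorem Qf_le (m j i : ℕ) (f : Fin 3) : Qf m j i f ≤ (10 ^ 6) ^ dg m j i f :=
  Nat.pow_log_le_self _ (by positivity)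

theorem lt_Qf_mul (m j i : ℕ) (f : Fin 3) :
    (10 ^ 6) ^ dg m j i f < Qf m j i f * sp (3 * i + f) := by
  unfold Qf
  rw [← pow_succ]
  exact Nat.lt_pow_succ_log_self (one_lt_sp _) _

theorem eight_dvd_W {m j i : ℕ} (hi : i + 1 ≤ m) (hr : 8 ≤ rt m j) : 8 ∣ W m j i := by
  have h1 : 2 ^ 3 ≤ W m j i := hr.trans (rt_le_W hi)
  unfold W at h1 ⊢
  exact pow_dvd_pow 2 ((Nat.pow_le_pow_iff_right (by norm_num : 1 < 2)).1 h1)

theorem eight_dvd_sub {m j i : ℕ} (hi : i + 1 ≤ m) (hr : 8 ≤ rt m j) :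
    8 ∣ W m j (i - 1) - W m j i :=
  Nat.dvd_sub (eight_dvd_W (by omega) hr) (eight_dvd_W hi hr)

/-- exact number of digits of the families: 3/8, 3/8, 2/8 -/
theorem eight_mul_dg {m j i : ℕ} (hi : i + 1 ≤ m) (hr : 8 ≤ rt m j) (f : Fin 3) :
    8 * dg m j i f = gw f * (W m j (i - 1) - W m j i) :=
  Nat.mul_div_cancel' ((eight_dvd_sub hi hr).mul_left _)

theorem sum_dg {m j i : ℕ} (hi : i + 1 ≤ m) (hr : 8 ≤ rt m j) :
    ∑ f : Fin 3, dg m j i f = W m j (i - 1) - W m j i := by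
  have h0 := eight_mul_dg hi hr 0
  have h1 := eight_mul_dg hi hr 1
  have h2 := eight_mul_dg hi hr 2
  rw [Fin.sum_univ_three]
  simp only [gw, Matrix.cons_val_zero, Matrix.cons_val_one, Matrix.cons_val] at h0 h1 h2
  omega

theorem Qs_le {m j i : ℕ} (hi : i + 1 ≤ m) (hr : 8 ≤ rt m j) :
    Qs m j i ≤ (10 ^ 6) ^ (W m j (i - 1) - W m j i) := by
  rw [← sum_dg hi hr, ← Finset.prod_pow_eq_pow_sum]
  exact Finset.prod_le_prod' (fun f _ => Qf_le m j i f)

/-- product of the primes of the level -/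
noncomputable def spp (i : ℕ) : ℕ := ∏ f : Fin 3, sp (3 * i + f)

theorem spp_pos (i : ℕ) : 0 < spp i := Finset.prod_pos (fun _ _ => sp_pos _)

theorem le_Qs_mul {m j i : ℕ} (hi : i + 1 ≤ m) (hr : 8 ≤ rt m j) :
    (10 ^ 6) ^ (W m j (i - 1) - W m j i) ≤ Qs m j i * spp i := by
  rw [← sum_dg hi hr, ← Finset.prod_pow_eq_pow_sum]
  unfold Qs spp
  rw [← Finset.prod_mul_distrib]
  exact Finset.prod_le_prod' (fun f _ => (lt_Qf_mul m j i f).le)

theorem Lp_le {m j s : ℕ} (hs1 : 1 ≤ s) (hs : s + 1 ≤ m) (hr : 8 ≤ rt m j) :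
    Lp m j s ≤ (10 ^ 6) ^ (W m j 1 - W m j s) := by
  induction s, hs1 using Nat.le_induction with
  | base => simp [Lp_one]
  | succ s h1 ih =>
    rw [Lp_succ h1]
    have e1 := ih (by omega)
    have e2 := Qs_le (j := j) (i := s + 1) hs hr
    have e3 : W m j (s + 1) ≤ W m j s := W_anti m j (by omega)
    have e4 : W m j s ≤ W m j 1 := W_anti m j h1
    rw [Nat.add_sub_cancel] at e2
    calc Lp m j s * Qs m j (s + 1)
        ≤ (10 ^ 6) ^ (W m j 1 - W m j s) * (10 ^ 6) ^ (W m j s - W m j (s + 1)) :=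
          Nat.mul_le_mul e1 e2
      _ = (10 ^ 6) ^ (W m j 1 - W m j (s + 1)) := by
          rw [← pow_add]
          congr 1
          omega

/-- product of all primes of the levels `2, ..., s` -/
noncomputable def spq (s : ℕ) : ℕ := ∏ i ∈ Icc 2 s, spp i

theorem spq_pos (s : ℕ) : 0 < spq s := Finset.prod_pos (fun i _ => spp_pos i)

theorem le_Lp_mul {m j s : ℕ} (hs1 : 1 ≤ s) (hs : s + 1 ≤ m) (hr : 8 ≤ rt m j) :
    (10 ^ 6) ^ (W m j 1 - W m j s) ≤ Lp m j s * spq s := by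
  induction s, hs1 using Nat.le_induction with
  | base => simp [Lp_one, spq]
  | succ s h1 ih =>
    have e0 : spq (s + 1) = spq s * spp (s + 1) := by
      unfold spq
      rw [Finset.prod_Icc_succ_top (by omega)]
    rw [Lp_succ h1, e0]
    have e1 := ih (by omega)
    have e2 := le_Qs_mul (j := j) (i := s + 1) hs hr
    have e3 : W m j (s + 1) ≤ W m j s := W_anti m j (by omega)
    have e4 : W m j s ≤ W m j 1 := W_anti m j h1
    rw [Nat.add_sub_cancel] at e2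
    calc (10 ^ 6) ^ (W m j 1 - W m j (s + 1))
        = (10 ^ 6) ^ (W m j 1 - W m j s) * (10 ^ 6) ^ (W m j s - W m j (s + 1)) := by
          rw [← pow_add]
          congr 1
          omega
      _ ≤ (Lp m j s * spq s) * (Qs m j (s + 1) * spp (s + 1)) := Nat.mul_le_mul e1 e2
      _ = Lp m j s * Qs m j (s + 1) * (spq s * spp (s + 1)) := by ring

/-! ## sizes, logarithms -/

theorem log_Qf_le (m j i : ℕ) (f : Fin 3) :
    Real.log (Qf m j i f) ≤ (dg m j i f : ℝ) * Real.log (10 ^ 6) := by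
  rw [← Real.log_pow]
  exact Real.log_le_log (by exact_mod_cast Qf_pos m j i f) (by exact_mod_cast Qf_le m j i f)

theorem le_log_Qf (m j i : ℕ) (f : Fin 3) :
    (dg m j i f : ℝ) * Real.log (10 ^ 6) - Real.log (sp (3 * i + f)) ≤ Real.log (Qf m j i f) := by
  have h0 : (Qf m j i f : ℝ) ≠ 0 := by exact_mod_cast (Qf_pos m j i f).ne'
  have h1 : ((sp (3 * i + f) : ℕ) : ℝ) ≠ 0 := by exact_mod_cast (sp_pos _).ne'
  rw [← Real.log_pow, sub_le_iff_le_add, ← Real.log_mul h0 h1]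
  exact Real.log_le_log (by positivity) (by exact_mod_cast (lt_Qf_mul m j i f).le)

theorem log_Qs_le {m j i : ℕ} (hi : i + 1 ≤ m) (hr : 8 ≤ rt m j) :
    Real.log (Qs m j i) ≤ ((W m j (i - 1) - W m j i : ℕ) : ℝ) * Real.log (10 ^ 6) := by
  rw [← Real.log_pow]
  exact Real.log_le_log (by exact_mod_cast Qs_pos m j i) (by exact_mod_cast Qs_le hi hr)

theorem le_log_Qs {m j i : ℕ} (hi : i + 1 ≤ m) (hr : 8 ≤ rt m j) :
    ((W m j (i - 1) - W m j i : ℕ) : ℝ) * Real.log (10 ^ 6) - Real.log (spp i) ≤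
      Real.log (Qs m j i) := by
  have h0 : (Qs m j i : ℝ) ≠ 0 := by exact_mod_cast (Qs_pos m j i).ne'
  have h1 : ((spp i : ℕ) : ℝ) ≠ 0 := by exact_mod_cast (spp_pos i).ne'
  rw [← Real.log_pow, sub_le_iff_le_add, ← Real.log_mul h0 h1]
  exact Real.log_le_log (by positivity) (by exact_mod_cast le_Qs_mul hi hr)

theorem log_Lp_le {m j s : ℕ} (hs1 : 1 ≤ s) (hs : s + 1 ≤ m) (hr : 8 ≤ rt m j) :
    Real.log (Lp m j s) ≤ ((W m j 1 - W m j s : ℕ) : ℝ) * Real.log (10 ^ 6) := by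
  rw [← Real.log_pow]
  exact Real.log_le_log (by exact_mod_cast Lp_pos m j s) (by exact_mod_cast Lp_le hs1 hs hr)

theorem le_log_Lp {m j s : ℕ} (hs1 : 1 ≤ s) (hs : s + 1 ≤ m) (hr : 8 ≤ rt m j) :
    ((W m j 1 - W m j s : ℕ) : ℝ) * Real.log (10 ^ 6) - Real.log (spq s) ≤
      Real.log (Lp m j s) := by
  have h0 : (Lp m j s : ℝ) ≠ 0 := by exact_mod_cast (Lp_pos m j s).ne'
  have h1 : ((spq s : ℕ) : ℝ) ≠ 0 := by exact_mod_cast (spq_pos s).ne'
  rw [← Real.log_pow, sub_le_iff_le_add, ← Real.log_mul h0 h1]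
  exact Real.log_le_log (by positivity) (by exact_mod_cast le_Lp_mul hs1 hs hr)

/-! ## comparison with the digits of the chain -/

theorem log_million_gt : (13 : ℝ) < Real.log (10 ^ 6) := by
  rw [Real.lt_log_iff_exp_lt (by norm_num)]
  have h1 : Real.exp 13 = Real.exp 1 ^ 13 := by rw [← Real.exp_nat_mul]; norm_num
  rw [h1]
  have h2 := Real.exp_one_lt_d9
  calc Real.exp 1 ^ 13 < 2.7182818286 ^ 13 := pow_lt_pow_left₀ h2 (Real.exp_pos 1).le (by norm_num)
    _ < 10 ^ 6 := by norm_num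

theorem log_million_lt : Real.log (10 ^ 6) < 14 :=
  (Real.log_le_log (by norm_num) (by norm_num : (10 : ℝ) ^ 6 ≤ 1000037)).trans_lt
    Pool.Agent.Helper30.ET.log_base_upper

/-- `log pr ≤ (1 + 1 / 100000) log 10 ^ 6` -/
theorem log_pr_le_million (f : Fin 3) :
    Real.log (pr f) ≤ (1 + 1 / 100000) * Real.log (10 ^ 6) := by
  have h0 := Pool.Agent.Helper30.ET.log_pr_le f
  have h1 : Real.log 1000037 = Real.log (10 ^ 6) + Real.log (1000037 / 10 ^ 6) := by
    rw [← Real.log_mul (by norm_num) (by norm_num)]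
    norm_num
  have h2 : Real.log (1000037 / 10 ^ 6) ≤ 1000037 / 10 ^ 6 - 1 :=
    Real.log_le_sub_one_of_pos (by norm_num)
  have h3 := log_million_gt
  have h4 : (1000037 / 10 ^ 6 - 1 : ℝ) ≤ 1 / 100000 * 13 := by norm_num
  have h5 : (1 + 1 / 100000) * Real.log (10 ^ 6) =
      Real.log (10 ^ 6) + 1 / 100000 * Real.log (10 ^ 6) := by ring
  rw [h5]
  have h6 : (1 / 100000 : ℝ) * 13 ≤ 1 / 100000 * Real.log (10 ^ 6) :=
    mul_le_mul_of_nonneg_left h3.le (by norm_num)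
  linarith

theorem log_million_le_pr (f : Fin 3) : Real.log (10 ^ 6) ≤ Real.log (pr f) :=
  (Real.log_le_log (by norm_num) (by norm_num)).trans (Pool.Agent.Helper30.ET.log_pr_ge f)

theorem million_pow_le_pr_pow (f : Fin 3) (d : ℕ) : (10 ^ 6) ^ d ≤ pr f ^ d :=
  Nat.pow_le_pow_left ((by norm_num : 10 ^ 6 ≤ 1000003).trans (Pool.Agent.Helper50.ET.pr_ge f)) d

/-- a power of a chain prime against a power of `10 ^ 6` -/
theorem pr_pow_le_million_pow (f : Fin 3) {d n : ℕ} (h : 100001 * d ≤ 100000 * n) :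
    pr f ^ d ≤ (10 ^ 6) ^ n := by
  have h1 : Real.log ((pr f : ℝ) ^ d) ≤ Real.log (((10 : ℝ) ^ 6) ^ n) := by
    rw [Real.log_pow, Real.log_pow]
    have h2 := log_pr_le_million f
    have h3 : (100001 : ℝ) * d ≤ 100000 * n := by exact_mod_cast h
    have h4 := log_million_gt
    have h5 : (d : ℝ) * Real.log (pr f) ≤ d * ((1 + 1 / 100000) * Real.log (10 ^ 6)) :=
      mul_le_mul_of_nonneg_left h2 (Nat.cast_nonneg _)
    have h6 : (d : ℝ) * (1 + 1 / 100000) ≤ n := by linarith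
    have h7 : (d : ℝ) * (1 + 1 / 100000) * Real.log (10 ^ 6) ≤ n * Real.log (10 ^ 6) :=
      mul_le_mul_of_nonneg_right h6 (by linarith)
    have h8 : (d : ℝ) * ((1 + 1 / 100000) * Real.log (10 ^ 6)) =
      d * (1 + 1 / 100000) * Real.log (10 ^ 6) := by ring
    rw [h8] at h5
    exact h5.trans h7
  have h8 : (0 : ℝ) < (pr f : ℝ) ^ d := pow_pos (by exact_mod_cast (pr_prime f).pos) _
  have h9 := (Real.log_le_log_iff h8 (by positivity)).1 h1
  exact_mod_cast h9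

/-- the same for a quotient of the chain -/
theorem Nj_div_le_million_pow {y z n : ℕ} (hyz : y ≤ z) (h : 100001 * (z - y) ≤ 100000 * n) :
    Nj z / Nj y ≤ (10 ^ 6) ^ n := by
  have h1 : (1000037 : ℕ) = pr 2 := rfl
  exact (Pool.Agent.Helper30.ET.Nj_div_upper hyz).trans (by
    rw [h1]
    exact pr_pow_le_million_pow 2 h)

theorem million_pow_le_Nj_div {y z : ℕ} (hyz : y ≤ z) : (10 ^ 6) ^ (z - y) ≤ Nj z / Nj y :=
  (Nat.pow_le_pow_left (by norm_num) _).trans (Pool.Agent.Helper30.ET.Nj_div_lower hyz)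

/-! ## late eras: the moduli in digits up to one part in ten thousand -/

theorem exists_sp_le (m k : ℕ) (hk : k + 2 ≤ m) : ∃ j0 : ℕ, ∀ j ≥ j0, ∀ i, 2 ≤ i → i ≤ k + 1 →
    ∀ f : Fin 3, sp (3 * i + f) ^ 20000 ≤ (10 ^ 6) ^ dg m j i f := by
  -- a bound for the primes
  have hB : ∀ i, i ≤ k + 1 → ∀ f : Fin 3, sp (3 * i + f) ≤ sp (3 * (k + 1) + 3) := by
    intro i hi f
    have := f.2
    exact sp_strictMono.monotone (by omega)
  set B := sp (3 * (k + 1) + 3) with hBdef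
  have hm : 0 < m := by omega
  obtain ⟨j1, h1⟩ := exists_mul_W_le (m := m) hm 2
  obtain ⟨j2, h2⟩ := exists_log_pow_le_W (m := m) hm ((16 * (20000 * B) : ℕ) : ℝ) 0
  obtain ⟨j3, h3⟩ := exists_le_rt (m := m) hm 8
  refine ⟨max j1 (max j2 j3), fun j hj i hi2 hik f => ?_⟩
  simp only [ge_iff_le, max_le_iff] at hj
  have e1 := h1 j hj.1 (i - 1) (by omega)
  have e2 := h2 j hj.2.1 (i - 1) (by omega)
  have e3 := h3 j hj.2.2
  rw [pow_zero, mul_one] at e2
  have e2' : 16 * (20000 * B) ≤ W m j (i - 1) := by exact_mod_cast e2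
  have e4 : i - 1 + 1 = i := by omega
  rw [e4] at e1
  have e5 := eight_mul_dg (j := j) (i := i) (by omega) e3 f
  have e6 : 1 ≤ gw f := by fin_cases f <;> simp [gw]
  have e7 : 20000 * B ≤ dg m j i f := by
    have : W m j (i - 1) - W m j i ≤ gw f * (W m j (i - 1) - W m j i) :=
      Nat.le_mul_of_pos_left _ (by omega)
    omega
  have e8 : sp (3 * i + f) ≤ (10 ^ 6) ^ B :=
    ((hB i hik f).trans (Nat.lt_pow_self (by norm_num : 1 < 10 ^ 6)).le)
  calc sp (3 * i + f) ^ 20000 ≤ ((10 ^ 6) ^ B) ^ 20000 := Nat.pow_le_pow_left e8 _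
    _ = (10 ^ 6) ^ (20000 * B) := by rw [← pow_mul]; congr 1; ring
    _ ≤ (10 ^ 6) ^ dg m j i f := Nat.pow_le_pow_right (by norm_num) e7

/-- late eras: `10 ^ (6 n) < Qf` as soon as `10001 n ≤ 10000 dg` -/
theorem exists_million_pow_le_Qf (m k : ℕ) (hk : k + 2 ≤ m) : ∃ j0 : ℕ, ∀ j ≥ j0,
    ∀ i, 2 ≤ i → i ≤ k + 1 → ∀ f : Fin 3, ∀ n : ℕ, 10001 * n ≤ 10000 * dg m j i f →
    (10 ^ 6) ^ n ≤ Qf m j i f := by
  obtain ⟨j0, h⟩ := exists_sp_le m k hk
  refine ⟨j0, fun j hj i hi2 hik f n hn => ?_⟩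
  have h1 := h j hj i hi2 hik f
  have h2 := lt_Qf_mul m j i f
  -- compare the 20000-th powers
  have h3 : ((10 ^ 6) ^ n * sp (3 * i + f)) ^ 20000 ≤ ((10 ^ 6) ^ dg m j i f) ^ 20000 := by
    rw [mul_pow]
    calc ((10 ^ 6) ^ n) ^ 20000 * sp (3 * i + f) ^ 20000
        ≤ ((10 ^ 6) ^ n) ^ 20000 * (10 ^ 6) ^ dg m j i f := Nat.mul_le_mul_left _ h1
      _ = (10 ^ 6) ^ (n * 20000 + dg m j i f) := by rw [← pow_mul, ← pow_add]
      _ ≤ (10 ^ 6) ^ (dg m j i f * 20000) := Nat.pow_le_pow_right (by norm_num) (by omega)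
      _ = ((10 ^ 6) ^ dg m j i f) ^ 20000 := pow_mul _ _ _
  have h4 : (10 ^ 6) ^ n * sp (3 * i + f) ≤ (10 ^ 6) ^ dg m j i f :=
    (Nat.pow_le_pow_iff_left (by norm_num : 20000 ≠ 0)).1 h3
  have h5 : (10 ^ 6) ^ n * sp (3 * i + f) < Qf m j i f * sp (3 * i + f) := h4.trans_lt h2
  exact (Nat.lt_of_mul_lt_mul_right h5).le

/-- late eras: `pr ^ d ≤ Qf` as soon as `1001 d ≤ 1000 dg` -/
theorem exists_pr_pow_le_Qf (m k : ℕ) (hk : k + 2 ≤ m) : ∃ j0 : ℕ, ∀ j ≥ j0,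
    ∀ i, 2 ≤ i → i ≤ k + 1 → ∀ f g : Fin 3, ∀ d : ℕ, 1001 * d ≤ 1000 * dg m j i f →
    pr g ^ d ≤ Qf m j i f := by
  obtain ⟨j0, h⟩ := exists_million_pow_le_Qf m k hk
  obtain ⟨j1, h1⟩ := exists_sp_le m k hk
  refine ⟨max j0 j1, fun j hj i hi2 hik f g d hd => ?_⟩
  simp only [ge_iff_le, max_le_iff] at hj
  -- `n := dg - dg / 10001 - 1`
  have e0 := h1 j hj.2 i hi2 hik f
  have e1 : 20000 ≤ dg m j i f := by
    have e2 : (10 ^ 6) ^ 20000 ≤ (10 ^ 6) ^ dg m j i f :=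
      (Nat.pow_le_pow_left (million_lt_sp _).le _).trans e0
    exact (Nat.pow_le_pow_iff_right (by norm_num : 1 < 10 ^ 6)).1 e2
  obtain ⟨n, hn1, hn2⟩ : ∃ n, 10001 * n ≤ 10000 * dg m j i f ∧ 100001 * d ≤ 100000 * n := by
    refine ⟨10000 * dg m j i f / 10001, by omega, by omega⟩
  exact (pr_pow_le_million_pow g hn2).trans (h j hj.1 i hi2 hik f n hn1)

end Pool.Agent.Helper30.T5
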