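import Pool.Agent.Helper30.T5.Stat

/-!
# T5a (MP_12a1af): monotonicity of the static moduli in the era, total size of the modulus
-/

namespace Pool.Agent.Helper30.T5

open Finset Pool.Agent.Helper5.ET Pool.Agent.Helper27.T5

theorem la_succ_le (j : ℕ) : la (j + 1) ≤ la j + 1 := by
  have h1 := Pool.Agent.Helper27.T4.bb_succ_le j
  have h2 := lt_la j
  have h3 : bb (j + 1) < 2 ^ (la j + 2) := by
    have h4 : 2 ^ (la j + 2) = 2 * 2 ^ (la j + 1) := by ring
    omega
  have h5 := Nat.log_lt_of_lt_pow (bb_pos (j + 1)).ne' h3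
  unfold la at h5 ⊢
  omega

/-- the first level window does not change when the quotient jumps, the deeper ones get smaller -/
theorem W_jump {m j : ℕ} (h1 : la (j + 1) = la j + 1)
    (h2 : la (j + 1) / m = la j / m + 1) {i : ℕ} (hi1 : 1 ≤ i) (hi : i ≤ m) :
    W m j i = 2 ^ (i - 1) * W m (j + 1) i := by
  have h3 : m * (la (j + 1) / m) ≤ la (j + 1) := Nat.mul_div_le _ _
  have h4 : i * (la (j + 1) / m) ≤ m * (la (j + 1) / m) := Nat.mul_le_mul_right _ hi
  unfold W
  rw [h2] at h3 h4 ⊢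
  rw [h1] at h3 ⊢
  rw [← pow_add]
  congr 1
  have e1 : i * (la j / m + 1) = i * (la j / m) + i := by ring
  rw [e1] at h4 ⊢
  omega

theorem W_double {m j : ℕ} (h1 : la (j + 1) = la j + 1)
    (h2 : la (j + 1) / m = la j / m) {i : ℕ} (hi : i ≤ m) :
    W m (j + 1) i = 2 * W m j i := by
  have h3 : i * (la j / m) ≤ la j := (Nat.mul_le_mul_right _ hi).trans (Nat.mul_div_le _ _)
  unfold W
  rw [h2, h1, ← pow_succ']
  congr 1
  omega

theorem W_same {m j : ℕ} (h1 : la (j + 1) = la j) (i : ℕ) : W m (j + 1) i = W m j i := by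
  unfold W
  rw [h1]

theorem Qf_mono {m j j' i : ℕ} (f : Fin 3)
    (h : W m j (i - 1) - W m j i ≤ W m j' (i - 1) - W m j' i) : Qf m j i f ≤ Qf m j' i f := by
  unfold Qf zz
  refine Nat.pow_le_pow_right (sp_pos _) (Nat.log_mono_right ?_)
  refine Nat.pow_le_pow_right (by norm_num) (Nat.div_le_div_right ?_)
  exact Nat.mul_le_mul_left _ h

theorem Lp_mono_of {m j j' s : ℕ}
    (h : ∀ i, 2 ≤ i → i ≤ s → W m j (i - 1) - W m j i ≤ W m j' (i - 1) - W m j' i) :
    Lp m j s ≤ Lp m j' s := by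
  unfold Lp
  refine Finset.prod_le_prod' (fun i hi => ?_)
  rw [mem_Icc] at hi
  exact Finset.prod_le_prod' (fun f _ => Qf_mono f (h i hi.1 hi.2))

/-- in late eras the product of the static moduli grows with the era -/
theorem exists_Lp_mono (m s : ℕ) (hs : s + 1 ≤ m) : ∃ j0 : ℕ, ∀ j ≥ j0,
    Lp m j s ≤ Lp m (j + 1) s := by
  have hm : 0 < m := by omega
  obtain ⟨j1, h1⟩ := exists_log_pow_le_W (m := m) hm ((2 * spq s + 2 : ℕ) : ℝ) 0
  obtain ⟨j2, h2⟩ := exists_le_rt (m := m) hm 8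
  refine ⟨max j1 j2, fun j hj => ?_⟩
  simp only [ge_iff_le, max_le_iff] at hj
  have hr := h2 j hj.2
  have hr' := h2 (j + 1) (by omega)
  rcases Nat.lt_or_ge s 2 with hs2 | hs2
  · have e1 : Icc 2 s = ∅ := Finset.Icc_eq_empty (by omega)
    unfold Lp
    rw [e1, Finset.prod_empty, Finset.prod_empty]
  have hla := la_succ_le j
  have hla' := la_mono (show j ≤ j + 1 by omega)
  rcases Nat.eq_or_lt_of_le hla' with hc | hc
  · exact Lp_mono_of (fun i _ _ => by rw [W_same hc.symm, W_same hc.symm])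
  have hc1 : la (j + 1) = la j + 1 := by omega
  have hq1 : la j / m ≤ la (j + 1) / m := Nat.div_le_div_right hla'
  have hq2 : la (j + 1) / m ≤ la j / m + 1 := by
    rw [hc1]
    calc (la j + 1) / m ≤ (la j + m) / m := Nat.div_le_div_right (by omega)
      _ = la j / m + 1 := Nat.add_div_right _ hm
  rcases Nat.eq_or_lt_of_le hq1 with hq | hq
  · refine Lp_mono_of (fun i hi1 hi2 => ?_)
    rw [W_double hc1 hq.symm (by omega), W_double hc1 hq.symm (by omega)]
    omega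
  · have hq3 : la (j + 1) / m = la j / m + 1 := by omega
    have e1 := W_jump hc1 hq3 (i := 1) (by omega) (by omega)
    have e2 := W_jump hc1 hq3 (i := s) (by omega) (by omega)
    rw [Nat.sub_self, pow_zero, one_mul] at e1
    have e3 : 2 * W m (j + 1) s ≤ W m j s := by
      rw [e2]
      have : 2 ^ 1 ≤ 2 ^ (s - 1) := Nat.pow_le_pow_right (by norm_num) (by omega)
      exact Nat.mul_le_mul_right _ (by simpa using this)
    have e4 := le_Lp_mul (j := j + 1) (s := s) (by omega) hs hr'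
    have e5 := Lp_le (j := j) (s := s) (by omega) hs hr
    have e6 : 2 * spq s + 2 ≤ W m j s := by
      have := h1 j hj.1 s (by omega)
      rw [pow_zero, mul_one] at this
      exact_mod_cast this
    have e7 : spq s ≤ (10 ^ 6) ^ (spq s) := (Nat.lt_pow_self (by norm_num : 1 < 10 ^ 6)).le
    have e8 : W m j s ≤ W m j 1 := W_anti m j (by omega)
    have e9 : W m j 1 - W m j s + spq s ≤ W m (j + 1) 1 - W m (j + 1) s := by omega
    refine Nat.le_of_mul_le_mul_right ?_ (spq_pos s)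
    calc Lp m j s * spq s ≤ (10 ^ 6) ^ (W m j 1 - W m j s) * (10 ^ 6) ^ (spq s) :=
          Nat.mul_le_mul e5 e7
      _ = (10 ^ 6) ^ (W m j 1 - W m j s + spq s) := by rw [← pow_add]
      _ ≤ (10 ^ 6) ^ (W m (j + 1) 1 - W m (j + 1) s) := Nat.pow_le_pow_right (by norm_num) e9
      _ ≤ Lp m (j + 1) s * spq s := e4

theorem exists_Lp_mono' (m s : ℕ) (hs : s + 1 ≤ m) : ∃ j0 : ℕ, ∀ j j', j0 ≤ j → j ≤ j' →
    Lp m j s ≤ Lp m j' s := by
  obtain ⟨j0, h⟩ := exists_Lp_mono m s hs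
  refine ⟨j0, fun j j' h1 h2 => ?_⟩
  induction j', h2 using Nat.le_induction with
  | base => exact le_rfl
  | succ j' h3 ih => exact ih.trans (h j' (by omega))

/-! ## the moduli of the used states -/

/-- modulus `X / A` of the state `l`, `s = k + 1` -/
noncomputable def XL (m s l : ℕ) : ℕ := Nj l * Lp m (era l) s

theorem XL_pos (m s l : ℕ) : 0 < XL m s l :=
  Nat.mul_pos (Pool.Agent.Helper50.ET.Nj_pos l) (Lp_pos _ _ _)

theorem Nj_le_XL (m s l : ℕ) : Nj l ≤ XL m s l := Nat.le_mul_of_pos_right _ (Lp_pos _ _ _)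

theorem Nj_succ (l : ℕ) : Nj (l + 1) = Nj l * pr (own l) := by
  rw [Pool.Agent.Helper30.ET.Nj_eq_prod, Pool.Agent.Helper30.ET.Nj_eq_prod,
    Finset.prod_range_succ]

theorem XL_same_era {m s l' l : ℕ} (h : l' ≤ l) (he : era l' = era l) :
    XL m s l = XL m s l' * pr (Pool.Agent.Helper27.T4.fam (era l)) ^ (l - l') := by
  unfold XL
  rw [Pool.Agent.Helper30.ET.Nj_same_era h he, he]
  ring

theorem XL_le_Nj_div {m s l' l : ℕ} (h : l' ≤ l) (he : era l' = era l) :
    XL m s l = XL m s l' * (Nj l / Nj l') := by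
  unfold XL
  rw [← he]
  have := Pool.Agent.Helper30.ET.Nj_div_mul h
  calc Nj l * Lp m (era l') s = (Nj l / Nj l' * Nj l') * Lp m (era l') s := by rw [this]
    _ = _ := by ring

/-- `XL` grows by a factor at least `1000003` in one step, in late eras -/
theorem exists_XL_succ (m s : ℕ) (hs : s + 1 ≤ m) : ∃ j0 : ℕ, ∀ l, bb j0 ≤ l →
    1000003 * XL m s l ≤ XL m s (l + 1) := by
  obtain ⟨j0, h⟩ := exists_Lp_mono' m s hs
  refine ⟨j0, fun l hl => ?_⟩
  have hl0 : bb 0 ≤ l :=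
    (Pool.Agent.Helper27.T4.bb_strictMono.monotone (Nat.zero_le _)).trans hl
  have e1 := Pool.Agent.Helper27.T4.era_spec l hl0
  have e2 := Pool.Agent.Helper27.T4.era_spec (l + 1) (by omega)
  have e3 : era l ≤ era (l + 1) := by
    by_contra hc
    have := Pool.Agent.Helper27.T4.bb_strictMono.monotone (show era (l + 1) + 1 ≤ era l by omega)
    omega
  have e4 : j0 ≤ era l := by
    by_contra hc
    have := Pool.Agent.Helper27.T4.bb_strictMono.monotone (show era l + 1 ≤ j0 by omega)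
    omega
  have e5 := h _ _ e4 e3
  have e6 : 1000003 ≤ pr (own l) := Pool.Agent.Helper50.ET.pr_ge _
  unfold XL
  rw [Nj_succ]
  calc 1000003 * (Nj l * Lp m (era l) s) = (Nj l * 1000003) * Lp m (era l) s := by ring
    _ ≤ (Nj l * pr (own l)) * Lp m (era (l + 1)) s :=
        Nat.mul_le_mul (Nat.mul_le_mul_left _ e6) e5

theorem exists_XL_mono (m s : ℕ) (hs : s + 1 ≤ m) : ∃ j0 : ℕ, ∀ l l', bb j0 ≤ l → l ≤ l' →
    XL m s l * 1000003 ^ (l' - l) ≤ XL m s l' := by
  obtain ⟨j0, h⟩ := exists_XL_succ m s hs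
  refine ⟨j0, fun l l' hl hll => ?_⟩
  induction l', hll using Nat.le_induction with
  | base => simp
  | succ l' h1 ih =>
    have e1 : l' + 1 - l = (l' - l) + 1 := by omega
    rw [e1, pow_succ]
    calc XL m s l * (1000003 ^ (l' - l) * 1000003)
        = 1000003 * (XL m s l * 1000003 ^ (l' - l)) := by ring
      _ ≤ 1000003 * XL m s l' := Nat.mul_le_mul_left _ ih
      _ ≤ _ := h l' (by omega)

/-- `log XL ≤ 14 l + 14 W 1` -/
theorem log_XL_le {m s l : ℕ} (hs1 : 1 ≤ s) (hs : s + 1 ≤ m) (hr : 8 ≤ rt m (era l)) :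
    Real.log (XL m s l) ≤ 14 * (l : ℝ) + 14 * (W m (era l) 1 : ℝ) := by
  have h1 : (Nj l : ℝ) ≠ 0 := by exact_mod_cast (Pool.Agent.Helper50.ET.Nj_pos l).ne'
  have h2 : ((Lp m (era l) s : ℕ) : ℝ) ≠ 0 := by exact_mod_cast (Lp_pos _ _ _).ne'
  have h3 := Pool.Agent.Helper30.ET.log_Nj_upper l
  have h4 := log_Lp_le (j := era l) hs1 hs hr
  have h5 := log_million_lt
  have h6 := log_million_gt
  have h7 := Pool.Agent.Helper30.ET.log_base_upper
  have h8 : ((W m (era l) 1 - W m (era l) s : ℕ) : ℝ) ≤ (W m (era l) 1 : ℝ) := by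
    exact_mod_cast Nat.sub_le _ _
  unfold XL
  rw [Nat.cast_mul, Real.log_mul h1 h2]
  have h9 : (l : ℝ) * Real.log 1000037 ≤ l * 14 :=
    mul_le_mul_of_nonneg_left h7.le (Nat.cast_nonneg _)
  have h10 : ((W m (era l) 1 - W m (era l) s : ℕ) : ℝ) * Real.log (10 ^ 6) ≤
      (W m (era l) 1 : ℝ) * 14 :=
    mul_le_mul h8 h5.le (by linarith) (Nat.cast_nonneg _)
  linarith

theorem log_XL_le' {m s l : ℕ} (hl : bb 0 ≤ l) (hs1 : 1 ≤ s) (hs : s + 1 ≤ m)
    (hr : 8 ≤ rt m (era l)) : Real.log (XL m s l) ≤ 28 * (l : ℝ) := by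
  have h1 := log_XL_le (l := l) hs1 hs hr
  have h2 : W m (era l) 1 ≤ l :=
    (W_anti m (era l) (Nat.zero_le 1)).trans ((W_zero_le m (era l)).trans
      (era_bounds hl rfl).1)
  have h3 : (W m (era l) 1 : ℝ) ≤ l := by exact_mod_cast h2
  linarith

theorem log_XL_ge (m s l : ℕ) : 13 * (l : ℝ) ≤ Real.log (XL m s l) := by
  have h1 : (0 : ℝ) < Nj l := by exact_mod_cast Pool.Agent.Helper50.ET.Nj_pos l
  have h2 : Real.log (Nj l) ≤ Real.log (XL m s l) :=
    Real.log_le_log h1 (by exact_mod_cast Nj_le_XL m s l)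
  have h3 := Pool.Agent.Helper30.ET.log_Nj_lower l
  have h4 := Pool.Agent.Helper30.ET.log_base_lower
  have h5 : (l : ℝ) * 13 ≤ l * Real.log 1000003 :=
    mul_le_mul_of_nonneg_left h4.le (Nat.cast_nonneg _)
  linarith

end Pool.Agent.Helper30.T5
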